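import Pool.Agent.U882.MF.Sym
import Pool.Agent.Y504.CO.Gen

/-!
# Stable limits of products of flows along one function and of free symmetries satisfy Axiom A

Author: helper1.

Definitions: `OmegaStable`, `OmegaConj`, `Omega`, `FiniteNoCycle` in `Pool/Agent/TH80/OMS`;
`SymProducts`, `SymProduct`, `FreeAct` in `Pool/Agent/U882/MF/Sym.lean` (helper882); `DissOp`,
`IsFlowOf` in `Pool/Agent/U1/VF`; `DiffM`, `strongTop` (the topology of class `C^r`) in
`Pool/Agent/H718R2/G0.lean`; `IsHyperbolicPer` in `Pool/Agent/Y504/CO/Rob.lean`.
-/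

set_option autoImplicit false

open scoped Manifold ContDiff Topology
open Set

universe u

namespace Pool.Agent.Results.MP_28932f_an.LimitsOfProducts

open Pool.Agent.H718R2.G Pool.Agent.TH80.OMS Pool.Agent.Y504.CO Pool.Agent.U882.MF

/-- Let `N` be a closed manifold and `1 ≤ r ≤ ∞` (for `r = ∞` this is the setting of the problem).
Let `F ∈ Diff^r(N)` be `Ω`-stable, and a limit, in the `C^r` topology, of products, in any order, of
elements of a finite group `Γ` which acts smoothly and freely on `N` and of time maps, `τ ≥ 0`, of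
flows of fields `A h`, where `h` is a smooth function invariant under `Γ` and `A` (which may vary
with the factor) is a linear operator which assigns to every smooth function `g` a smooth field
`A g` with `dg (A g) ≥ 0`; `Γ` and `h` may vary in the limit. Then `Ω(F)` is finite and consists of
hyperbolic periodic points, so `F` satisfies Axiom A, and there are no cycles. -/
theorem result (n : ℕ) (N : Type u) [TopologicalSpace N] [T2Space N] [CompactSpace N]
    [ChartedSpace (V n) N] [IsManifold (𝓡 n) ∞ N] (r : ℕ∞) (hr : 1 ≤ r) (F : DiffM n N r)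
    (hF : OmegaStable n N r F) (hcl : F ∈ closure[strongTop n N r] (SymProducts n N r)) :
    FiniteNoCycle F ∧ ∀ p ∈ Omega F, IsHyperbolicPer n F p := by
  have h0 := closures_sym n N r hr hcl
  obtain ⟨U, hU, hFU, hconj⟩ := id hF
  obtain ⟨G, hGU, hG⟩ : ∃ G ∈ U, G ∈ FiniteAxiomA n N r := by
    let _ : TopologicalSpace (DiffM n N r) := strongTop n N r
    obtain ⟨G, h1, h2⟩ := mem_closure_iff.1 h0 U hU hFU
    exact ⟨G, h1, h2⟩
  obtain ⟨e, -⟩ := hconj G hGU
  have hfG : (Omega G).Finite := hG.1.1
  have hfF : (Omega F).Finite := by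
    have : Finite (Omega G) := hfG
    have : Finite (Omega F) := Finite.of_equiv _ e.toEquiv.symm
    exact Set.toFinite _
  exact Gen.stable hr hF (hfF.countable.mono fun x hx => rec_sub_omega hx.1)

end Pool.Agent.Results.MP_28932f_an.LimitsOfProducts
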